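import Pool.Agent.H.MP_c695c6_lc.helper54.Cover

/-!
Lower bounds for depth-two circuits, and for depth-three circuits with small bottom fan-in,
deciding isomorphism of two groups given by their Cayley tables.
-/

namespace Pool.Agent.Results.MP_c695c6_lc.DepthThree

open Pool.Agent.H54.GpI

/-- Names of the `2 ^ k` group elements: bit strings of length `k`. -/
abbrev Lab (k : ℕ) := Fin k → Bool

/-- A multiplication table on the names. -/
abbrev Table (k : ℕ) := Lab k → Lab k → Lab k

/-- The table is the table of a group. -/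
def IsGroupTable {k : ℕ} (T : Table k) : Prop :=
  (∀ x y z, T (T x y) z = T x (T y z)) ∧
    ∃ e, (∀ x, T e x = x ∧ T x e = x) ∧ ∀ x, ∃ y, T x y = e ∧ T y x = e

/-- The table is the table of an abelian group of exponent dividing four. -/
def IsAb4Table {k : ℕ} (T : Table k) : Prop :=
  IsGroupTable T ∧ (∀ x y, T x y = T y x) ∧ ∀ x y, T (T (T x x) (T x x)) y = y

/-- The two tables define isomorphic groups. -/
def TableIso {k : ℕ} (T T' : Table k) : Prop :=
  ∃ σ : Equiv.Perm (Lab k), ∀ x y, σ (T x y) = T' (σ x) (σ y)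

/-- Addresses of the input bits: which table, row, column, bit of the entry. -/
abbrev Addr (k : ℕ) := Bool × Lab k × Lab k × Fin k

/-- The input bits of the pair of tables `(T, T')`. -/
def inputBits {k : ℕ} (T T' : Table k) : Addr k → Bool :=
  fun v => if v.1 then T' v.2.1 v.2.2.1 v.2.2.2 else T v.2.1 v.2.2.1 v.2.2.2

/-- A gate: a Boolean function of the input bits. -/
abbrev Gate (k : ℕ) := (Addr k → Bool) → Prop

/-- The gate depends on at most `d` input bits. -/
def FanIn {k : ℕ} (d : ℕ) (g : Gate k) : Prop :=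
  ∃ D : Finset (Addr k), D.card ≤ d ∧
    ∀ a a' : Addr k → Bool, (∀ v ∈ D, a v = a' v) → (g a ↔ g a')

/-- The circuit `OR_i AND_(g in F i) g`. -/
def OrAnd {k S : ℕ} (F : Fin S → Set (Gate k)) (a : Addr k → Bool) : Prop :=
  ∃ i, ∀ g ∈ F i, g a

/-- The circuit `AND_i OR_(g in F i) g`. -/
def AndOr {k S : ℕ} (F : Fin S → Set (Gate k)) (a : Addr k → Bool) : Prop :=
  ∀ i, ∃ g ∈ F i, g a

theorem isAb4_tab {G : Type*} [AddCommGroup G] {k : ℕ} (h4 : ∀ x : G, x + x + x + x = 0)
    (p : G ≃ Lab k) : IsAb4Table (tab p) := by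
  refine ⟨⟨?_, p 0, ?_, ?_⟩, ?_, ?_⟩
  · intro x y z
    simp [tab, add_assoc]
  · intro x
    simp [tab]
  · intro x
    exact ⟨p (-p.symm x), by simp [tab], by simp [tab]⟩
  · intro x y
    simp [tab, add_comm]
  · intro x y
    have h := h4 (p.symm x)
    have h2 : p.symm x + p.symm x + (p.symm x + p.symm x) = 0 := by
      rw [← h]; abel
    simp [tab, h2]

theorem tabIso_tab {G : Type*} [AddCommGroup G] {k : ℕ} (p p' : G ≃ Lab k) :
    TableIso (tab p) (tab p') := by
  refine ⟨p.symm.trans p', ?_⟩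
  intro x y
  simp [tab]

theorem addEquiv_of_tabIso {G G' : Type*} [AddCommGroup G] [AddCommGroup G'] {k : ℕ}
    (p : G ≃ Lab k) (p' : G' ≃ Lab k) (h : TableIso (tab p) (tab p')) :
    Nonempty (G ≃+ G') := by
  obtain ⟨σ, hσ⟩ := h
  refine ⟨{ (p.trans (σ.trans p'.symm)) with map_add' := ?_ }⟩
  intro a b
  have h1 := hσ (p a) (p b)
  simp only [tab, Equiv.symm_apply_apply] at h1
  show p'.symm (σ (p (a + b))) = p'.symm (σ (p a)) + p'.symm (σ (p b))
  rw [h1]
  simp

theorem tableIso_symm {k : ℕ} {T T' : Table k} (h : TableIso T T') : TableIso T' T := by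
  obtain ⟨σ, hσ⟩ := h
  refine ⟨σ.symm, ?_⟩
  intro x y
  rw [Equiv.symm_apply_eq, hσ]
  simp

theorem fanIn_loc {k d : ℕ} (A : Table k) (g : Gate k) (hg : FanIn d g) :
    LocTab d (fun T => g (inputBits T A)) := by
  classical
  obtain ⟨D, hD, h⟩ := hg
  refine ⟨D.image (fun v => v.2), le_trans Finset.card_image_le hD, ?_⟩
  intro T T' hT
  apply h
  intro v hv
  unfold inputBits
  by_cases hb : v.1 = true
  · rw [if_pos hb, if_pos hb]
  · rw [if_neg hb, if_neg hb]
    exact hT v.2 (Finset.mem_image_of_mem _ hv)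

/-- Let `n = 2 ^ k`. There are two non-isomorphic abelian groups of exponent dividing `4` and of
order `n`, given by tables `A` and `B`, such that every circuit of depth three with bottom
fan-in `d` (an OR of `S` ANDs, or an AND of `S` ORs, of gates that each depend on at most `d` of the
input bits) which decides isomorphism correctly on all pairs `(T, A)`, where `T` is a table
isomorphic to `A` or to `B`, has `S ≥ 2 ^ (n^(1/4) / (16 d 16^d))`. -/
theorem result (k : ℕ) (hk : 2 ≤ k) :
    ∃ A B : Table k, IsAb4Table A ∧ IsAb4Table B ∧ ¬ TableIso A B ∧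
      ∀ (d S : ℕ) (F : Fin S → Set (Gate k)), (∀ i, ∀ g ∈ F i, FanIn d g) →
        ((∀ T : Table k, TableIso T A ∨ TableIso T B →
            (OrAnd F (inputBits T A) ↔ TableIso T A)) ∨
          (∀ T : Table k, TableIso T A ∨ TableIso T B →
            (AndOr F (inputBits T A) ↔ TableIso T A))) →
        2 ^ (2 ^ (k / 4) / (16 * d * 16 ^ d)) ≤ S := by
  classical
  obtain ⟨b, c, hbc, hc⟩ : ∃ b c : ℕ, 2 * b + c + 2 = k ∧ c ≤ 1 :=
    ⟨k / 2 - 1, k % 2, params k hk, by omega⟩
  have eA : Fintype.card (GA b c) = Fintype.card (Lab k) := by rw [card_GA, hbc]; simp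
  have eB : Fintype.card (GB b c) = Fintype.card (Lab k) := by rw [card_GB, hbc]; simp
  let pA : GA b c ≃ Lab k := Fintype.equivOfCardEq eA
  let pB : GB b c ≃ Lab k := Fintype.equivOfCardEq eB
  have hA4 : ∀ x : GA b c, x + x + x + x = 0 := by
    intro x
    have h4 : ∀ x : ZMod 4, x + x + x + x = 0 := by decide
    exact Prod.ext (h4 x.1) (four_KK b c x.2)
  have hB4 : ∀ x : GB b c, x + x + x + x = 0 := by
    intro x
    have h4 : ∀ x : ZMod 2 × ZMod 2, x + x + x + x = 0 := by decide
    exact Prod.ext (h4 x.1) (four_KK b c x.2)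
  have hnot : ∀ (p : GA b c ≃ Lab k) (p' : GB b c ≃ Lab k), ¬ TableIso (tab p) (tab p') := by
    intro p p' h
    obtain ⟨e⟩ := addEquiv_of_tabIso p p' h
    exact (not_iso b c).false e
  refine ⟨tab pA, tab pB, isAb4_tab hA4 pA, isAb4_tab hB4 pB, hnot pA pB, ?_⟩
  intro d S F hF hcase
  let o : Lab k := fun _ => false
  rcases hcase with h | h
  · apply sepAB k b c hbc hc d S o
      (fun i => {h | ∃ g ∈ F i, h = fun T => g (inputBits T (tab pA))})
    · rintro i _ ⟨g, hg, rfl⟩
      exact fanIn_loc (tab pA) g (hF i g hg)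
    · intro π _
      have h1 := (h (tab π) (Or.inl (tabIso_tab π pA))).mpr (tabIso_tab π pA)
      obtain ⟨i, hi⟩ := h1
      refine ⟨i, ?_⟩
      rintro _ ⟨g, hg, rfl⟩
      exact hi g hg
    · intro σ _ i
      have h1 : ¬ OrAnd F (inputBits (tab σ) (tab pA)) := by
        rw [h (tab σ) (Or.inr (tabIso_tab σ pB))]
        intro h2
        exact hnot pA σ (tableIso_symm h2)
      unfold OrAnd at h1
      push Not at h1
      obtain ⟨g, hg, hg2⟩ := h1 i
      exact ⟨_, ⟨g, hg, rfl⟩, hg2⟩
  · apply sepBA k b c hbc hc d S o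
      (fun i => {h | ∃ g ∈ F i, h = fun T => ¬ g (inputBits T (tab pA))})
    · rintro i _ ⟨g, hg, rfl⟩
      obtain ⟨D, hD, hloc⟩ := fanIn_loc (tab pA) g (hF i g hg)
      exact ⟨D, hD, fun T T' hT => not_congr (hloc T T' hT)⟩
    · intro π _
      have h1 : ¬ AndOr F (inputBits (tab π) (tab pA)) := by
        rw [h (tab π) (Or.inr (tabIso_tab π pB))]
        intro h2
        exact hnot pA π (tableIso_symm h2)
      unfold AndOr at h1
      push Not at h1
      obtain ⟨i, hi⟩ := h1
      refine ⟨i, ?_⟩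
      rintro _ ⟨g, hg, rfl⟩
      exact hi g hg
    · intro σ _ i
      have h1 := (h (tab σ) (Or.inl (tabIso_tab σ pA))).mpr (tabIso_tab σ pA)
      obtain ⟨g, hg, hg2⟩ := h1 i
      exact ⟨_, ⟨g, hg, rfl⟩, fun hn => hn hg2⟩

end Pool.Agent.Results.MP_c695c6_lc.DepthThree
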