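import Pool.Agent.H.MP_c695c6_lc.helper82.Aver
import Pool.Agent.H.MP_c695c6_lc.helper82.Groups

/-!
No weighted threshold of functions that each look at few entries of the table decides
isomorphism of two abelian groups given by their Cayley tables.
-/

namespace Pool.Agent.Results.MP_c695c6_lc.LocalThreshold

open Finset
open Pool.Agent.H82.GpMaj

/-- Multiplication tables on the set `Fin n` of names of the group elements. -/
abbrev Table (n : ℕ) := Fin n → Fin n → Fin n

/-- `T` is a Cayley table of the abelian group `G`. -/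
def IsTableOf {n : ℕ} (G : Type) [AddCommGroup G] (T : Table n) : Prop :=
  ∃ e : Fin n ≃ G, ∀ i j, e (T i j) = e i + e j

/-- The two tables define isomorphic groups. -/
def TableIso {n : ℕ} (T T' : Table n) : Prop :=
  ∃ σ : Equiv.Perm (Fin n), ∀ i j, σ (T i j) = T' (σ i) (σ j)

/-- A weighted threshold, with real weights, of `s` predicates of the input `(T, T')`. -/
structure ThresholdCircuit (n s : ℕ) where
  gate : Fin s → Table n → Table n → Prop
  weight : Fin s → ℝ
  threshold : ℝ

open scoped Classical in
/-- The circuit accepts the input `(T, T')`. -/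
def ThresholdCircuit.Accepts {n s : ℕ} (C : ThresholdCircuit n s) (T T' : Table n) : Prop :=
  C.threshold ≤ ∑ i, if C.gate i T T' then C.weight i else 0

/-- The predicate looks at no more than `d` entries of the first table. -/
def IsLocal {n : ℕ} (d : ℕ) (g : Table n → Table n → Prop) : Prop :=
  ∃ Q : Finset (Fin n × Fin n), Q.card ≤ d ∧
    ∀ T₁ T₂ T' : Table n, (∀ q ∈ Q, T₁ q.1 q.2 = T₂ q.1 q.2) → (g T₁ T' ↔ g T₂ T')

theorem not_iso_gen (p : ℕ) [Fact p.Prime] (K : Type) [AddCommGroup K] [Fintype K]
    (f : (ZMod (p ^ 2) × K) ≃ (ZMod p × ZMod p × K))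
    (hf : ∀ x y, f (x + y) = f x + f y) : False := by
  classical
  have hp : p.Prime := Fact.out
  have : NeZero (p ^ 2) := ⟨by have := hp.pos; positivity⟩
  let g : (ZMod (p ^ 2) × K) ≃+ (ZMod p × ZMod p × K) := { f with map_add' := hf }
  let A := {x : ZMod (p ^ 2) × K // p • x = 0}
  let B := {x : ZMod p × ZMod p × K // p • x = 0}
  let k := {x : K // p • x = 0}
  let z := {x : ZMod (p ^ 2) // p • x = 0}
  have hAB : Fintype.card A = Fintype.card B := by
    refine Fintype.card_congr
      { toFun := fun x => ⟨g x.1, by rw [← map_nsmul, x.2, map_zero]⟩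
        invFun := fun y => ⟨g.symm y.1, by rw [← map_nsmul, y.2, map_zero]⟩
        left_inv := fun x => by simp
        right_inv := fun x => by simp }
  have hA : Fintype.card A = Fintype.card z * Fintype.card k := by
    rw [← Fintype.card_prod]
    refine Fintype.card_congr
      { toFun := fun x => (⟨x.1.1, congrArg Prod.fst x.2⟩, ⟨x.1.2, congrArg Prod.snd x.2⟩)
        invFun := fun y => ⟨(y.1.1, y.2.1), Prod.ext y.1.2 y.2.2⟩
        left_inv := fun x => rfl
        right_inv := fun x => rfl }
  have hB : Fintype.card B = p * p * Fintype.card k := by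
    have h1 : Fintype.card B = Fintype.card ((ZMod p × ZMod p) × k) := by
      refine Fintype.card_congr
        { toFun := fun x => ((x.1.1, x.1.2.1),
            ⟨x.1.2.2, congrArg (fun q : ZMod p × ZMod p × K => q.2.2) x.2⟩)
          invFun := fun y => ⟨(y.1.1, y.1.2, y.2.1), ?_⟩
          left_inv := fun x => rfl
          right_inv := fun x => rfl }
      refine Prod.ext ?_ (Prod.ext ?_ y.2.2)
      · simp [nsmul_eq_mul]
      · simp [nsmul_eq_mul]
    rw [h1]
    simp [ZMod.card]
  have hz : Fintype.card z < p * p := by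
    have h1 : Fintype.card z < Fintype.card (ZMod (p ^ 2)) := by
      refine Fintype.card_subtype_lt (x := (1 : ZMod (p ^ 2))) ?_
      rw [nsmul_eq_mul, mul_one, ZMod.natCast_eq_zero_iff]
      intro h
      have h2 := Nat.le_of_dvd hp.pos h
      have h3 := hp.two_le
      nlinarith
    rw [ZMod.card] at h1
    have h4 : p ^ 2 = p * p := pow_two p
    omega
  have hk : 0 < Fintype.card k := Fintype.card_pos_iff.mpr ⟨⟨0, by simp⟩⟩
  have h1 : Fintype.card z * Fintype.card k < p * p * Fintype.card k :=
    Nat.mul_lt_mul_of_pos_right hz hk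
  omega

/-- For every prime `p` and every finite abelian group `K`: the groups `ℤ/p² × K` and
`(ℤ/p)² × K` are not isomorphic, but no weighted threshold, with real weights, of any number of
predicates that each look at fewer than `(log₂ p)/4` entries of `T` answers correctly, for all
Cayley tables `T` of the two groups, whether `T` is isomorphic to a given table `A` of the
first group. -/
theorem result (p : ℕ) (hp : p.Prime) (K : Type) [AddCommGroup K] [Fintype K] :
    (∃ A B : Table (p ^ 2 * Fintype.card K), IsTableOf (ZMod (p ^ 2) × K) A ∧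
      IsTableOf (ZMod p × ZMod p × K) B ∧ ¬ TableIso B A) ∧
    ∀ A : Table (p ^ 2 * Fintype.card K), IsTableOf (ZMod (p ^ 2) × K) A →
      ∀ d < Nat.log 2 p / 4, ∀ (s : ℕ) (C : ThresholdCircuit (p ^ 2 * Fintype.card K) s),
        (∀ i, IsLocal d (C.gate i)) →
        ¬ ∀ T : Table (p ^ 2 * Fintype.card K), IsTableOf (ZMod (p ^ 2) × K) T ∨
          IsTableOf (ZMod p × ZMod p × K) T → (C.Accepts T A ↔ TableIso T A) := by
  classical
  have : Fact p.Prime := ⟨hp⟩
  have hcard : Fintype.card (Fin (p ^ 2 * Fintype.card K)) = Fintype.card (X p K) := by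
    simp only [Fintype.card_prod, ZMod.card, Fintype.card_fin]
    ring
  have hno : ∀ A B : Table (p ^ 2 * Fintype.card K), IsTableOf (ZMod (p ^ 2) × K) A →
      IsTableOf (ZMod p × ZMod p × K) B → ¬ TableIso B A := by
    rintro A B ⟨eA, heA⟩ ⟨e, he⟩ ⟨σ, hσ⟩
    refine not_iso_gen p K (eA.symm.trans (σ.symm.trans e)) fun x y => ?_
    simp only [Equiv.trans_apply]
    rw [← he]
    congr 1
    rw [Equiv.symm_apply_eq, hσ, Equiv.symm_apply_eq, heA]
    simp
  constructor
  · obtain ⟨π⟩ := Fintype.card_eq.mp hcard
    exact ⟨tab op1 π, tab op0 π, exists_table1 π, exists_table0 π,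
      hno _ _ (exists_table1 π) (exists_table0 π)⟩
  · intro A hA d hd s C hloc hC
    set L := Nat.log 2 p with hL
    have hr0 : (4 : ℤ) ^ ((L - 1) / 2) < p := by
      have h1 : 4 ^ ((L - 1) / 2) < 2 ^ L := by
        rw [show 4 = 2 ^ 2 by norm_num, ← pow_mul]
        exact Nat.pow_lt_pow_right (by norm_num) (by omega)
      have h2 : 2 ^ L ≤ p := Nat.pow_log_le_self 2 hp.ne_zero
      exact_mod_cast h1.trans_le h2
    have hiso1 : ∀ π : Fin (p ^ 2 * Fintype.card K) ≃ X p K, C.Accepts (tab op1 π) A := by
      intro π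
      obtain ⟨eA, heA⟩ := hA
      obtain ⟨e, he⟩ := exists_table1 π
      refine (hC _ (Or.inl ⟨e, he⟩)).mpr ⟨e.trans eA.symm, fun i j => ?_⟩
      simp only [Equiv.trans_apply]
      rw [Equiv.symm_apply_eq, heA, he]
      simp
    have hiso0 : ∀ π : Fin (p ^ 2 * Fintype.card K) ≃ X p K, ¬ C.Accepts (tab op0 π) A := by
      intro π hacc
      exact hno A _ hA (exists_table0 π) ((hC _ (Or.inr (exists_table0 π))).mp hacc)
    refine averaging_exact (K := K) hcard C.weight C.threshold (fun i T => C.gate i T A)
      ?_ ?_ ?_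
    · intro i
      obtain ⟨Q, hQ, hdep⟩ := hloc i
      exact card_eq_of_few ((L - 1) / 2) hr0 (fun T => C.gate i T A) Q (by omega)
        (fun T₁ T₂ h => hdep T₁ T₂ A h)
    · intro π
      have h := hiso1 π
      unfold ThresholdCircuit.Accepts at h
      exact h
    · intro π
      have h := hiso0 π
      unfold ThresholdCircuit.Accepts at h
      exact not_le.mp h

end Pool.Agent.Results.MP_c695c6_lc.LocalThreshold
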