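import Pool.Agent.H.MP_c695c6_lc.helper82.Aver
import Pool.Agent.H.MP_c695c6_lc.helper82.Lits
import Pool.Agent.H.MP_c695c6_lc.helper82.Param2
import Pool.Agent.H.MP_c695c6_lc.helper82.Groups

/-!
A quasipolynomial lower bound for depth-three circuits with a weighted majority gate at the top
that decide isomorphism of two abelian groups given by their Cayley tables.
-/

namespace Pool.Agent.Results.MP_c695c6_lc.MajorityCircuits

open Finset
open Pool.Agent.H82.GpMaj

/-- Multiplication tables on the set `Fin n` of names of the group elements. -/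
abbrev Table (n : ℕ) := Fin n → Fin n → Fin n

/-- `T` is a Cayley table of the abelian group `G`. -/
def IsTableOf {n : ℕ} (G : Type) [AddCommGroup G] (T : Table n) : Prop :=
  ∃ e : Fin n ≃ G, ∀ i j, e (T i j) = e i + e j

/-- The two tables define isomorphic groups. -/
def TableIso {n : ℕ} (T T' : Table n) : Prop :=
  ∃ σ : Equiv.Perm (Fin n), ∀ i j, σ (T i j) = T' (σ i) (σ j)

/-- A literal on the input `(T, T')`: which table, row, column, bit of the entry, and the
required value of this bit. -/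
structure Literal (n : ℕ) where
  second : Bool
  row : Fin n
  col : Fin n
  bit : ℕ
  value : Bool

/-- The literal is satisfied by the input `(T, T')`. -/
def Literal.Holds {n : ℕ} (l : Literal n) (T T' : Table n) : Prop :=
  Nat.testBit ((if l.second then T' else T) l.row l.col) l.bit = l.value

/-- A bottom gate: an AND or an OR of any set of literals. -/
structure Bottom (n : ℕ) where
  isAnd : Bool
  literals : Set (Literal n)

/-- The value of a bottom gate on the input `(T, T')`. -/
def Bottom.Holds {n : ℕ} (b : Bottom n) (T T' : Table n) : Prop :=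
  if b.isAnd then ∀ l ∈ b.literals, l.Holds T T' else ∃ l ∈ b.literals, l.Holds T T'

/-- A circuit with a weighted threshold gate with integer weights at the top, whose `s` inputs
are middle gates, each an arbitrary Boolean function of `M` bottom gates. -/
structure Circuit (n M s : ℕ) where
  bottom : Fin s → Fin M → Bottom n
  middle : Fin s → (Fin M → Prop) → Prop
  weight : Fin s → ℤ
  threshold : ℤ

open scoped Classical in
/-- The circuit accepts the input `(T, T')`. -/
def Circuit.Accepts {n M s : ℕ} (C : Circuit n M s) (T T' : Table n) : Prop :=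
  C.threshold ≤ ∑ i, if C.middle i (fun m => (C.bottom i m).Holds T T') then C.weight i else 0

/-- The sum of the absolute values of the weights. -/
def Circuit.totalWeight {n M s : ℕ} (C : Circuit n M s) : ℕ := ∑ i, (C.weight i).natAbs

open scoped Classical in
theorem and_form (n κ : ℕ) (h1 : 5 * 2 ^ κ ≤ 4 * n) (h2 : n < 2 ^ (κ + 1))
    (L : Set (Literal n)) (A : Table n) :
    ∃ S : Fin n → Fin n → Finset (Fin n),
      (∀ i j, S i j ≠ univ → 5 * (S i j).card ≤ 4 * n) ∧
      ∀ T : Table n, (∀ l ∈ L, l.Holds T A) ↔ ∀ i j, T i j ∈ S i j := by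
  have hn : 0 < n := by
    have : 0 < 2 ^ κ := by positivity
    omega
  by_cases hA : ∀ l ∈ L, l.second = true → Nat.testBit (A l.row l.col) l.bit = l.value
  · refine ⟨fun i j => univ.filter (fun v : Fin n =>
      ∀ q ∈ {q : ℕ × Bool | ∃ l ∈ L, l.second = false ∧ l.row = i ∧ l.col = j ∧
        l.bit = q.1 ∧ l.value = q.2}, Nat.testBit v q.1 = q.2), ?_, ?_⟩
    · intro i j hne
      exact cut_frac n κ h1 h2 _ hne
    · intro T
      constructor
      · intro h i j
        rw [Finset.mem_filter]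
        refine ⟨Finset.mem_univ _, ?_⟩
        rintro q ⟨l, hl, hs, hr, hc, hb, hv⟩
        have := h l hl
        unfold Literal.Holds at this
        rw [hs, hr, hc, hb, hv] at this
        simpa using this
      · intro h l hl
        unfold Literal.Holds
        cases hs : l.second with
        | false =>
          have := h l.row l.col
          rw [Finset.mem_filter] at this
          have h3 := this.2 (l.bit, l.value) ⟨l, hl, hs, rfl, rfl, rfl, rfl⟩
          simpa using h3
        | true =>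
          simpa using hA l hl hs
  · refine ⟨fun _ _ => ∅, fun i j _ => by simp, fun T => ?_⟩
    constructor
    · intro h
      exfalso
      apply hA
      intro l hl hs
      have := h l hl
      unfold Literal.Holds at this
      rw [hs] at this
      simpa using this
    · intro h
      exact absurd (h ⟨0, hn⟩ ⟨0, hn⟩) (Finset.notMem_empty _)

theorem bottom_form (n κ : ℕ) (h1 : 5 * 2 ^ κ ≤ 4 * n) (h2 : n < 2 ^ (κ + 1))
    (b : Bottom n) (A : Table n) :
    ∃ S : Fin n → Fin n → Finset (Fin n),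
      (∀ i j, S i j ≠ univ → 5 * (S i j).card ≤ 4 * n) ∧
      ∀ T : Table n, b.Holds T A ↔
        if b.isAnd then (∀ i j, T i j ∈ S i j) else ¬ ∀ i j, T i j ∈ S i j := by
  cases hb : b.isAnd with
  | true =>
    obtain ⟨S, hS, hT⟩ := and_form n κ h1 h2 b.literals A
    refine ⟨S, hS, fun T => ?_⟩
    unfold Bottom.Holds
    rw [hb]
    simpa using hT T
  | false =>
    obtain ⟨S, hS, hT⟩ := and_form n κ h1 h2
      {l : Literal n | (⟨l.second, l.row, l.col, l.bit, !l.value⟩ : Literal n) ∈ b.literals} A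
    refine ⟨S, hS, fun T => ?_⟩
    unfold Bottom.Holds
    rw [hb, ← hT T]
    simp only [Bool.false_eq_true, if_false]
    constructor
    · rintro ⟨l, hl, hl2⟩ h
      have h3 := h ⟨l.second, l.row, l.col, l.bit, !l.value⟩ (by
        simpa using hl)
      unfold Literal.Holds at hl2 h3
      rw [hl2] at h3
      simp at h3
    · intro h
      by_contra hcon
      apply h
      intro l hl
      have hl' : (⟨l.second, l.row, l.col, l.bit, !l.value⟩ : Literal n) ∈ b.literals := hl
      unfold Literal.Holds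
      by_contra hne
      apply hcon
      refine ⟨_, hl', ?_⟩
      unfold Literal.Holds
      revert hne
      cases Nat.testBit ((if l.second then A else T) l.row l.col) l.bit <;>
        cases l.value <;> simp

open scoped Classical in
theorem circuit_bound (p c n κ L : ℕ) [Fact p.Prime] [NeZero c] (hc : c < p)
    (hn : n = p ^ 2 * c) (hκ1 : 5 * 2 ^ κ ≤ 4 * n) (hκ2 : n < 2 ^ (κ + 1))
    (hL2 : 1000 ≤ L) (hL : (2 ^ 40 : ℝ) * (L : ℝ) ^ 16 ≤ (2 : ℝ) ^ ((L : ℝ) / 30))
    (hp1 : 2 ^ L ≤ p) (hp2 : p < 2 ^ (L + 1)) (hn1 : p ^ 2 ≤ n) (hn2 : n ≤ 5 * p ^ 2)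
    (A : Table n) (hA : IsTableOf (ZMod (p ^ 2) × ZMod c) A) (M s : ℕ) (C : Circuit n M s)
    (hM : M ^ 10 ≤ n)
    (hC : ∀ T : Table n, IsTableOf (ZMod (p ^ 2) × ZMod c) T ∨
      IsTableOf (ZMod p × ZMod p × ZMod c) T → (C.Accepts T A ↔ TableIso T A)) :
    2 ^ ((Nat.log 2 n) ^ 2 / 60) ≤ C.totalWeight := by
  obtain ⟨q1, q2, q3, q4⟩ := param_final L p n M hL2 hL hp1 hp2 hn1 hn2 hM
  choose S hS hST using fun i m => bottom_form n κ hκ1 hκ2 (C.bottom i m) A
  have hcard : Fintype.card (Fin n) = Fintype.card (X p (ZMod c)) := by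
    simp only [Fintype.card_prod, ZMod.card, Fintype.card_fin]
    rw [hn]
    ring
  have hr0 : (4 : ℤ) ^ ((L - 1) / 2) < p := by
    have h1 : 4 ^ ((L - 1) / 2) < 2 ^ L := by
      rw [show 4 = 2 ^ 2 by norm_num, ← pow_mul]
      exact Nat.pow_lt_pow_right (by norm_num) (by omega)
    exact_mod_cast h1.trans_le hp1
  -- the middle gates as functions of the AND events
  let g : Fin s → (Fin M → Prop) → Prop := fun i v =>
    C.middle i (fun m => if (C.bottom i m).isAnd then v m else ¬ v m)
  have hg : ∀ i (T : Table n), C.middle i (fun m => (C.bottom i m).Holds T A) ↔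
      g i (fun m => ∀ a b, T a b ∈ S i m a b) := by
    intro i T
    have : (fun m => (C.bottom i m).Holds T A) =
        fun m => if (C.bottom i m).isAnd then (∀ a b, T a b ∈ S i m a b)
          else ¬ ∀ a b, T a b ∈ S i m a b := by
      funext m
      exact propext (hST i m T)
    simp only [g]
    rw [this]
  -- the two kinds of tables
  obtain ⟨eA, heA⟩ := hA
  have hiso1 : ∀ π : Fin n ≃ X p (ZMod c), C.Accepts (tab op1 π) A := by
    intro π
    obtain ⟨e, he⟩ := exists_table1 π
    refine (hC _ (Or.inl ⟨e, he⟩)).mpr ⟨e.trans eA.symm, fun i j => ?_⟩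
    simp only [Equiv.trans_apply]
    rw [Equiv.symm_apply_eq, heA, he]
    simp
  have hiso0 : ∀ π : Fin n ≃ X p (ZMod c), ¬ C.Accepts (tab op0 π) A := by
    intro π hacc
    obtain ⟨e, he⟩ := exists_table0 π
    obtain ⟨σ, hσ⟩ := (hC _ (Or.inr ⟨e, he⟩)).mp hacc
    refine not_iso c (NeZero.pos c) hc (eA.symm.trans (σ.symm.trans e)) fun x y => ?_
    simp only [Equiv.trans_apply]
    rw [← he]
    congr 1
    rw [Equiv.symm_apply_eq, hσ, Equiv.symm_apply_eq, heA]
    simp
  have havg := averaging (K := ZMod c) hcard C.weight C.threshold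
    (fun i T => g i (fun m => ∀ a b, T a b ∈ S i m a b))
    (epsGate p (Fintype.card (Fin n)) M (3 * L ^ 2) ((L - 1) / 2)
      (1 + M * (2 * (4 * (3 * L ^ 2) * (3 * L ^ 2)))))
    (fun i => gate_real (K := ZMod c) (S i) ((L - 1) / 2) (3 * L ^ 2)
      (1 + M * (2 * (4 * (3 * L ^ 2) * (3 * L ^ 2)))) hr0
      (by intro m a b h; rw [Fintype.card_fin]; exact hS i m a b h) hcard
      (by rw [Fintype.card_fin]; exact q1) (by rw [Fintype.card_fin]; exact q2) le_rfl
      (by rw [Fintype.card_fin]; exact q3) (g i))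
    (by
      intro π
      have h := hiso1 π
      unfold Circuit.Accepts at h
      simpa only [hg] using h)
    (by
      intro π
      have h := hiso0 π
      unfold Circuit.Accepts at h
      simpa only [hg, not_le] using h)
  rw [Fintype.card_fin] at havg
  set ε := epsGate p n M (3 * L ^ 2) ((L - 1) / 2)
    (1 + M * (2 * (4 * (3 * L ^ 2) * (3 * L ^ 2)))) with hε
  have hεpos : 0 < ε := by
    by_contra hneg
    push Not at hneg
    have : ((∑ i, (C.weight i).natAbs : ℕ) : ℝ) * ε ≤ 0 :=
      mul_nonpos_of_nonneg_of_nonpos (Nat.cast_nonneg _) hneg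
    linarith
  have hlt : ((2 ^ ((Nat.log 2 n) ^ 2 / 60) : ℕ) : ℝ) <
      ((∑ i, (C.weight i).natAbs : ℕ) : ℝ) := by
    push_cast
    push_cast at havg
    exact lt_of_mul_lt_mul_right (q4.trans_le havg) hεpos.le
  exact (Nat.cast_lt.mp hlt).le

/-- For every large `N` there are a prime `p`, `c ∈ {1, 5}` and `n = p² c ∈ [N, 25 N]` such that
`ℤ/p² × ℤ/c` and `(ℤ/p)² × ℤ/c`, of order `n`, have the following property. Let `A` be any Cayley
table of the first group, and let a circuit with a weighted threshold gate at the top, whose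
middle gates are arbitrary functions of `M ≤ n^(1/10)` bottom gates, each an AND or an OR of any
number of literals, answer correctly whether `T` and `A` define isomorphic groups, for all Cayley
tables `T` of the two groups. Then the total weight is at least `2^⌊(log₂ n)²/60⌋`. -/
theorem result : ∃ N₀ : ℕ, ∀ N ≥ N₀, ∃ n p c : ℕ, N ≤ n ∧ n ≤ 25 * N ∧ p.Prime ∧
    (c = 1 ∨ c = 5) ∧ n = p ^ 2 * c ∧
    (∃ A : Table n, IsTableOf (ZMod (p ^ 2) × ZMod c) A) ∧
    (∃ B : Table n, IsTableOf (ZMod p × ZMod p × ZMod c) B) ∧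
    (∀ A B : Table n, IsTableOf (ZMod (p ^ 2) × ZMod c) A →
      IsTableOf (ZMod p × ZMod p × ZMod c) B → ¬ TableIso B A) ∧
    ∀ A : Table n, IsTableOf (ZMod (p ^ 2) × ZMod c) A →
      ∀ (M s : ℕ) (C : Circuit n M s), M ^ 10 ≤ n →
        (∀ T : Table n, IsTableOf (ZMod (p ^ 2) × ZMod c) T ∨
          IsTableOf (ZMod p × ZMod p × ZMod c) T → (C.Accepts T A ↔ TableIso T A)) →
        2 ^ ((Nat.log 2 n) ^ 2 / 60) ≤ C.totalWeight := by
  obtain ⟨L0, hL0⟩ := exists_L0
  set L1 := max L0 1000 with hL1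
  refine ⟨max 1000 (2 ^ (2 * (L1 + 1))), fun N hN => ?_⟩
  have hN1 : 1000 ≤ N := (le_max_left _ _).trans hN
  have hN2 : 2 ^ (2 * (L1 + 1)) ≤ N := (le_max_right _ _).trans hN
  obtain ⟨p, c, κ, hp, hpN, hpc, hc, hκ1, hκ2⟩ := choose_order N hN1
  have : Fact p.Prime := ⟨hp⟩
  have hc0 : 0 < c := by rcases hc with h | h <;> omega
  have hc5 : c ≤ 5 := by rcases hc with h | h <;> omega
  have : NeZero c := ⟨by omega⟩
  have hpL : 2 ^ (L1 + 1) ≤ p := by
    have h1 : (2 ^ (L1 + 1)) ^ 2 ≤ p ^ 2 := by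
      rw [← pow_mul, mul_comm (L1 + 1) 2]
      exact hN2.trans hpN
    exact (Nat.pow_le_pow_iff_left (by norm_num)).mp h1
  have hp0 : p ≠ 0 := hp.ne_zero
  set L := Nat.log 2 p with hLdef
  have hpl1 : 2 ^ L ≤ p := Nat.pow_log_le_self 2 hp0
  have hpl2 : p < 2 ^ (L + 1) := Nat.lt_pow_succ_log_self (by norm_num) p
  have hLL : L1 + 1 ≤ L := by
    have h1 : 2 ^ (L1 + 1) < 2 ^ (L + 1) := hpL.trans_lt hpl2
    have h2 := (Nat.pow_lt_pow_iff_right (by norm_num : 1 < 2)).mp h1
    omega
  have hLge : 1000 ≤ L := by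
    have : 1000 ≤ L1 := le_max_right _ _
    omega
  have hLL0 : L0 ≤ L := by
    have : L0 ≤ L1 := le_max_left _ _
    omega
  have hcp : c < p := by
    have h1 : 2 ^ 3 ≤ 2 ^ L := Nat.pow_le_pow_right (by norm_num) (by omega)
    omega
  have hn1 : p ^ 2 ≤ p ^ 2 * c := Nat.le_mul_of_pos_right _ hc0
  have hn2 : p ^ 2 * c ≤ 5 * p ^ 2 := by
    rw [mul_comm 5]; exact Nat.mul_le_mul_left _ hc5
  have hcard : Fintype.card (Fin (p ^ 2 * c)) = Fintype.card (X p (ZMod c)) := by
    simp only [Fintype.card_prod, ZMod.card, Fintype.card_fin]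
    ring
  obtain ⟨π⟩ := Fintype.card_eq.mp hcard
  refine ⟨p ^ 2 * c, p, c, hpN.trans hn1, hpc, hp, hc, rfl, ⟨tab op1 π, exists_table1 π⟩,
    ⟨tab op0 π, exists_table0 π⟩, ?_, ?_⟩
  · rintro A B ⟨eA, heA⟩ ⟨e, he⟩ ⟨σ, hσ⟩
    refine not_iso c hc0 hcp (eA.symm.trans (σ.symm.trans e)) fun x y => ?_
    simp only [Equiv.trans_apply]
    rw [← he]
    congr 1
    rw [Equiv.symm_apply_eq, hσ, Equiv.symm_apply_eq, heA]
    simp
  · intro A hA M s C hM hC
    exact circuit_bound p c (p ^ 2 * c) κ L hcp rfl hκ1 hκ2 hLge (hL0 L hLL0) hpl1 hpl2 hn1 hn2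
      A hA M s C hM hC

end Pool.Agent.Results.MP_c695c6_lc.MajorityCircuits
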