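import Pool.Agent.H.MP_c695c6_lc.helper82.Run

/-!
No sentence of first-order logic with regular-language quantifiers, whose variables range over the
names `0, ..., n-1` of the group elements and which may use the order and the addition of the names,
defines isomorphism of two abelian groups given by their Cayley tables.
-/

namespace Pool.Agent.Results.MP_c695c6_lc.RegularLogic

open Pool.Agent.H82.GpLogic

/-- Multiplication tables on the set `Fin n` of names of the group elements. -/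
abbrev Table (n : ℕ) := Fin n → Fin n → Fin n

/-- `T` is a Cayley table of an abelian group. -/
def IsAbelianGroupTable {n : ℕ} (T : Table n) : Prop :=
  ∃ (G : Type) (_ : AddCommGroup G) (e : Fin n ≃ G), ∀ i j, e (T i j) = e i + e j

/-- The two tables define isomorphic groups. -/
def TableIso {n : ℕ} (T T' : Table n) : Prop :=
  ∃ σ : Equiv.Perm (Fin n), ∀ i j, σ (T i j) = T' (σ i) (σ j)

/-- Formulas whose free variables are the elements of `Fin k`. The bound variable of a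
quantifier is the last variable of its body. Besides the two tables the atoms are equality, order
and addition of names, and numerical predicates named by `i : ι` and of arity `ar i`. -/
inductive Formula (ι : Type) (ar : ι → ℕ) : ℕ → Type
  | eq {k : ℕ} (a b : Fin k) : Formula ι ar k
  | lt {k : ℕ} (a b : Fin k) : Formula ι ar k
  | add {k : ℕ} (a b c : Fin k) : Formula ι ar k
  | num {k : ℕ} (i : ι) (u : Fin (ar i) → Fin k) : Formula ι ar k
  | tab {k : ℕ} (a b c : Fin k) : Formula ι ar k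
  | tab' {k : ℕ} (a b c : Fin k) : Formula ι ar k
  | neg {k : ℕ} (φ : Formula ι ar k) : Formula ι ar k
  | and {k : ℕ} (φ ψ : Formula ι ar k) : Formula ι ar k
  | ex {k : ℕ} (φ : Formula ι ar (k + 1)) : Formula ι ar k
  | reg {k : ℕ} (r q : ℕ) (φ : Fin r → Formula ι ar (k + 1)) (s₀ : Fin q)
      (δ : Fin q → Set (Fin r) → Fin q) (F : Set (Fin q)) : Formula ι ar k

/-- Truth of a formula. The formula `reg r q φ s₀ δ F` says: the finite automaton with the `q`
states `Fin q`, start `s₀`, transitions `δ` and accepting states `F` accepts the word whose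
letters, for the names `x = 0, ..., n-1` in this order, are the sets of the `i : Fin r` for which
`φ i` holds at `x`. -/
def Sat {ι : Type} {ar : ι → ℕ} {n : ℕ} (N : ∀ i, (Fin (ar i) → Fin n) → Prop)
    (T T' : Table n) : {k : ℕ} → Formula ι ar k → (Fin k → Fin n) → Prop
  | _, .eq a b, v => v a = v b
  | _, .lt a b, v => v a < v b
  | _, .add a b c, v => (v a : ℕ) + v b = v c
  | _, .num i u, v => N i (fun s => v (u s))
  | _, .tab a b c, v => T (v a) (v b) = v c
  | _, .tab' a b c, v => T' (v a) (v b) = v c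
  | _, .neg φ, v => ¬ Sat N T T' φ v
  | _, .and φ ψ, v => Sat N T T' φ v ∧ Sat N T T' ψ v
  | _, .ex φ, v => ∃ x : Fin n, Sat N T T' φ (Fin.snoc (α := fun _ => Fin n) v x)
  | _, .reg _ _ φ s₀ δ F, v =>
      (List.finRange n).foldl
        (fun s x => δ s {i | Sat N T T' (φ i) (Fin.snoc (α := fun _ => Fin n) v x)}) s₀ ∈ F

/-- The numerical predicate `P` (a relation on `Fin n` for every `n`) is decided, for
`n = 2 ^ j * 2 ^ j`, by a bounded amount of information on the first halves of its arguments (the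
quotients by `2 ^ j`) and a bounded amount of information on their second halves (the remainders
modulo `2 ^ j`): two functions `f`, `g` with values in a finite set `C` independent of `j`. -/
def SplitBounded {a : ℕ} (P : ∀ n, (Fin a → Fin n) → Prop) : Prop :=
  ∃ C : Type, Finite C ∧ ∀ j : ℕ,
    ∃ (f g : (Fin a → Fin (2 ^ j)) → C) (D : C → C → Prop),
      ∀ v : Fin a → Fin (2 ^ j * 2 ^ j),
        P (2 ^ j * 2 ^ j) v ↔ D (f fun s => (v s).divNat) (g fun s => (v s).modNat)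

/-- The 2-automatic predicate given by a finite automaton that reads the binary digits (as many
as `Nat.log 2 n`) of its arguments in parallel, the most significant digits first. -/
def Automatic {a q : ℕ} (s₀ : Fin q) (δ : Fin q → Set (Fin a) → Fin q) (F : Set (Fin q)) (n : ℕ)
    (v : Fin a → Fin n) : Prop :=
  run (fun p s => δ s {i | (v i : ℕ).testBit (Nat.log 2 n - 1 - p) = true}) (Nat.log 2 n) s₀ ∈ F

theorem splitBounded_automatic {a q : ℕ} (s₀ : Fin q) (δ : Fin q → Set (Fin a) → Fin q)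
    (F : Set (Fin q)) : SplitBounded (Automatic s₀ δ F) := by
  refine ⟨Fin q × (Fin q → Fin q), inferInstance, fun j => ?_⟩
  refine ⟨fun h => (run (fun p s => δ s {i | (h i : ℕ).testBit (j - 1 - p) = true}) j s₀, id),
    fun l => (s₀, fun s => run (fun p s => δ s {i | (l i : ℕ).testBit (j - 1 - p) = true}) j s),
    fun c c' => c'.2 c.1 ∈ F, fun v => ?_⟩
  have hlog : Nat.log 2 (2 ^ j * 2 ^ j) = j + j := by
    rw [← pow_add, Nat.log_pow (by norm_num)]
  have h1 : ∀ p < j, ∀ i, (v i : ℕ).testBit (j + j - 1 - p) =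
      ((v i).divNat : ℕ).testBit (j - 1 - p) := by
    intro p hp i
    show _ = ((v i : ℕ) / 2 ^ j).testBit (j - 1 - p)
    rw [Nat.testBit_div_two_pow]
    congr 1
    omega
  have h2 : ∀ p < j, ∀ i, (v i : ℕ).testBit (j + j - 1 - (j + p)) =
      ((v i).modNat : ℕ).testBit (j - 1 - p) := by
    intro p hp i
    show _ = ((v i : ℕ) % 2 ^ j).testBit (j - 1 - p)
    rw [Nat.testBit_mod_two_pow]
    have e : j + j - 1 - (j + p) = j - 1 - p := by omega
    have e' : j - 1 - p < j := by omega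
    rw [e]
    simp [e']
  have e1 : run (fun p s => δ s {i | (v i : ℕ).testBit (j + j - 1 - p) = true}) j =
      run (fun p s => δ s {i | ((v i).divNat : ℕ).testBit (j - 1 - p) = true}) j := by
    apply run_congr
    intro p hp
    funext s
    congr 1
    ext i
    rw [Set.mem_ofPred_eq, Set.mem_ofPred_eq, h1 p hp i]
  have e2 : run (fun p s => δ s {i | (v i : ℕ).testBit (j + j - 1 - (j + p)) = true}) j =
      run (fun p s => δ s {i | ((v i).modNat : ℕ).testBit (j - 1 - p) = true}) j := by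
    apply run_congr
    intro p hp
    funext s
    congr 1
    ext i
    rw [Set.mem_ofPred_eq, Set.mem_ofPred_eq, h2 p hp i]
  unfold Automatic
  rw [hlog, run_add, e1, e2]

/-- one half of the pair of tables -/
abbrev Half (m : ℕ) := Table m × Table m

/-- the product table -/
def prodTab {m : ℕ} (A B : Table m) : Table (m * m) :=
  fun x y => comb (A x.divNat y.divNat) (B x.modNat y.modNat)

/-- relations decided by boundedly many colours of the two halves -/
def Dec {k : ℕ} (P : ∀ j : ℕ, Half (2 ^ j) → Half (2 ^ j) → (Fin k → Fin (2 ^ j * 2 ^ j)) → Prop) :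
    Prop :=
  ∃ C C' : Type, Finite C ∧ Finite C' ∧ ∀ j : ℕ,
    ∃ (L : Half (2 ^ j) → (Fin k → Fin (2 ^ j)) → C)
      (R : Half (2 ^ j) → (Fin k → Fin (2 ^ j)) → C') (D : C → C' → Prop),
      ∀ (Γ Λ : Half (2 ^ j)) (v : Fin k → Fin (2 ^ j * 2 ^ j)),
        P j Γ Λ v ↔ D (L Γ fun s => (v s).divNat) (R Λ fun s => (v s).modNat)

theorem comb_inj {a m : ℕ} {h h' : Fin a} {l l' : Fin m} :
    comb h l = comb h' l' ↔ h = h' ∧ l = l' := by
  constructor
  · intro H
    have h1 := congrArg Fin.divNat H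
    have h2 := congrArg Fin.modNat H
    rw [divNat_comb, divNat_comb] at h1
    rw [modNat_comb, modNat_comb] at h2
    exact ⟨h1, h2⟩
  · rintro ⟨rfl, rfl⟩; rfl

theorem eq_iff {a m : ℕ} (x y : Fin (a * m)) :
    x = y ↔ x.divNat = y.divNat ∧ x.modNat = y.modNat := by
  conv_lhs => rw [← comb_divNat_modNat x, ← comb_divNat_modNat y]
  exact comb_inj

theorem lt_iff {a m : ℕ} (x y : Fin (a * m)) :
    x < y ↔ x.divNat < y.divNat ∨ (x.divNat = y.divNat ∧ x.modNat < y.modNat) := by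
  have hm : ∀ z : Fin (a * m), (z : ℕ) = (z.divNat : ℕ) * m + z.modNat := fun z =>
    (congrArg Fin.val (comb_divNat_modNat z)).symm
  rw [Fin.lt_def, Fin.lt_def, Fin.lt_def, Fin.ext_iff, hm x, hm y]
  have h1 := x.modNat.2
  have h2 := y.modNat.2
  generalize (x.divNat : ℕ) = p at *
  generalize (y.divNat : ℕ) = q at *
  generalize (x.modNat : ℕ) = r at *
  generalize (y.modNat : ℕ) = s at *
  constructor
  · intro h
    rcases lt_trichotomy p q with h3 | h3 | h3
    · exact Or.inl h3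
    · subst h3
      exact Or.inr ⟨rfl, by omega⟩
    · exfalso
      have : (q + 1) * m ≤ p * m := Nat.mul_le_mul_right m h3
      have h4 : (q + 1) * m = q * m + m := by ring
      omega
  · rintro (h | ⟨rfl, h⟩)
    · have : (p + 1) * m ≤ q * m := Nat.mul_le_mul_right m h
      have h4 : (p + 1) * m = p * m + m := by ring
      omega
    · omega

theorem add_iff {a m : ℕ} (x y z : Fin (a * m)) :
    (x : ℕ) + y = z ↔
      ((x.divNat : ℕ) + y.divNat = z.divNat ∧ (x.modNat : ℕ) + y.modNat = z.modNat) ∨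
      ((x.divNat : ℕ) + y.divNat + 1 = z.divNat ∧ (x.modNat : ℕ) + y.modNat = z.modNat + m) := by
  have hm : ∀ z : Fin (a * m), (z : ℕ) = (z.divNat : ℕ) * m + z.modNat := fun z =>
    (congrArg Fin.val (comb_divNat_modNat z)).symm
  rw [hm x, hm y, hm z]
  have h1 := x.modNat.2
  have h2 := y.modNat.2
  have h3 := z.modNat.2
  generalize (x.divNat : ℕ) = p at *
  generalize (y.divNat : ℕ) = q at *
  generalize (z.divNat : ℕ) = w at *
  generalize (x.modNat : ℕ) = r at *
  generalize (y.modNat : ℕ) = s at *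
  generalize (z.modNat : ℕ) = t at *
  have e : p * m + r + (q * m + s) = (p + q) * m + (r + s) := by ring
  rw [e]
  generalize p + q = u at *
  constructor
  · intro h
    rcases lt_trichotomy u w with h4 | h4 | h4
    · right
      rcases Nat.lt_or_ge (u + 1) w with h5 | h5
      · exfalso
        have : (u + 1 + 1) * m ≤ w * m := Nat.mul_le_mul_right m h5
        have h6 : (u + 1 + 1) * m = u * m + m + m := by ring
        omega
      · have h6 : w = u + 1 := by omega
        subst h6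
        have h7 : (u + 1) * m = u * m + m := by ring
        refine ⟨rfl, by omega⟩
    · left
      subst h4
      exact ⟨rfl, by omega⟩
    · exfalso
      have : (w + 1) * m ≤ u * m := Nat.mul_le_mul_right m h4
      have h6 : (w + 1) * m = w * m + m := by ring
      omega
  · rintro (⟨rfl, h⟩ | ⟨rfl, h⟩)
    · omega
    · have h7 : (u + 1) * m = u * m + m := by ring
      omega

theorem dec_basic {k : ℕ}
    (P : ∀ j : ℕ, Half (2 ^ j) → Half (2 ^ j) → (Fin k → Fin (2 ^ j * 2 ^ j)) → Prop)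
    (C C' : Type) [Finite C] [Finite C']
    (L : ∀ j, Half (2 ^ j) → (Fin k → Fin (2 ^ j)) → C)
    (R : ∀ j, Half (2 ^ j) → (Fin k → Fin (2 ^ j)) → C') (D : C → C' → Prop)
    (h : ∀ j Γ Λ v, P j Γ Λ v ↔
      D (L j Γ fun s => (v s).divNat) (R j Λ fun s => (v s).modNat)) : Dec P :=
  ⟨C, C', inferInstance, inferInstance, fun j => ⟨L j, R j, D, fun Γ Λ v => h j Γ Λ v⟩⟩

theorem dec_eq {k : ℕ} (a b : Fin k) : Dec (fun _ _ _ v => v a = v b) :=
  dec_basic _ Prop Prop (fun _ _ v => v a = v b) (fun _ _ v => v a = v b) (fun p q => p ∧ q)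
    (fun _ _ _ v => eq_iff (v a) (v b))

theorem dec_lt {k : ℕ} (a b : Fin k) : Dec (fun _ _ _ v => v a < v b) :=
  dec_basic _ (Prop × Prop) Prop (fun _ _ v => (v a < v b, v a = v b)) (fun _ _ v => v a < v b)
    (fun p q => p.1 ∨ (p.2 ∧ q)) (fun _ _ _ v => lt_iff (v a) (v b))

theorem dec_add {k : ℕ} (a b c : Fin k) : Dec (fun _ _ _ v => (v a : ℕ) + v b = v c) :=
  dec_basic _ (Prop × Prop) (Prop × Prop)
    (fun _ _ v => ((v a : ℕ) + v b = v c, (v a : ℕ) + v b + 1 = v c))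
    (fun j _ v => ((v a : ℕ) + v b = v c, (v a : ℕ) + v b = v c + 2 ^ j))
    (fun p q => (p.1 ∧ q.1) ∨ (p.2 ∧ q.2)) (fun _ _ _ v => add_iff (v a) (v b) (v c))

theorem dec_tab {k : ℕ} (a b c : Fin k) :
    Dec (fun _ Γ Λ v => prodTab Γ.1 Λ.1 (v a) (v b) = v c) :=
  dec_basic _ Prop Prop (fun _ Γ v => Γ.1 (v a) (v b) = v c) (fun _ Λ v => Λ.1 (v a) (v b) = v c)
    (fun p q => p ∧ q) (fun _ Γ Λ v => by
      rw [eq_iff]
      unfold prodTab
      rw [divNat_comb, modNat_comb])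

theorem dec_tab' {k : ℕ} (a b c : Fin k) :
    Dec (fun _ Γ Λ v => prodTab Γ.2 Λ.2 (v a) (v b) = v c) :=
  dec_basic _ Prop Prop (fun _ Γ v => Γ.2 (v a) (v b) = v c) (fun _ Λ v => Λ.2 (v a) (v b) = v c)
    (fun p q => p ∧ q) (fun _ Γ Λ v => by
      rw [eq_iff]
      unfold prodTab
      rw [divNat_comb, modNat_comb])

theorem dec_num {k a : ℕ} (N : ∀ n, (Fin a → Fin n) → Prop) (hN : SplitBounded N)
    (u : Fin a → Fin k) : Dec (fun _ _ _ v => N _ (fun s => v (u s))) := by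
  obtain ⟨C, hC, hK⟩ := hN
  refine ⟨C, C, hC, hC, fun j => ?_⟩
  obtain ⟨f, g, D, h⟩ := hK j
  exact ⟨fun _ v => f (fun s => v (u s)), fun _ v => g (fun s => v (u s)), D,
    fun _ _ v => h (fun s => v (u s))⟩

theorem dec_neg {k : ℕ}
    {P : ∀ j : ℕ, Half (2 ^ j) → Half (2 ^ j) → (Fin k → Fin (2 ^ j * 2 ^ j)) → Prop}
    (hP : Dec P) : Dec (fun j Γ Λ v => ¬ P j Γ Λ v) := by
  obtain ⟨C, C', hC, hC', H⟩ := hP
  refine ⟨C, C', hC, hC', fun j => ?_⟩
  obtain ⟨L, R, D, h⟩ := H j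
  exact ⟨L, R, fun c c' => ¬ D c c', fun Γ Λ v => not_congr (h Γ Λ v)⟩

theorem dec_and {k : ℕ}
    {P Q : ∀ j : ℕ, Half (2 ^ j) → Half (2 ^ j) → (Fin k → Fin (2 ^ j * 2 ^ j)) → Prop}
    (hP : Dec P) (hQ : Dec Q) : Dec (fun j Γ Λ v => P j Γ Λ v ∧ Q j Γ Λ v) := by
  obtain ⟨C, C', hC, hC', H⟩ := hP
  obtain ⟨E, E', hE, hE', H'⟩ := hQ
  refine ⟨C × E, C' × E', inferInstance, inferInstance, fun j => ?_⟩
  obtain ⟨L, R, D, h⟩ := H j
  obtain ⟨L', R', D', h'⟩ := H' j
  exact ⟨fun Γ v => (L Γ v, L' Γ v), fun Λ v => (R Λ v, R' Λ v),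
    fun c c' => D c.1 c'.1 ∧ D' c.2 c'.2, fun Γ Λ v => and_congr (h Γ Λ v) (h' Γ Λ v)⟩

theorem snoc_map {k m n : ℕ} (f : Fin m → Fin n) (v : Fin k → Fin m) (x : Fin m) :
    (fun s => f (Fin.snoc (α := fun _ => Fin m) v x s)) =
      Fin.snoc (α := fun _ => Fin n) (fun s => f (v s)) (f x) := by
  funext s
  refine Fin.lastCases ?_ (fun s => ?_) s
  · simp
  · simp

theorem dec_ex {k : ℕ}
    {P : ∀ j : ℕ, Half (2 ^ j) → Half (2 ^ j) → (Fin (k + 1) → Fin (2 ^ j * 2 ^ j)) → Prop}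
    (hP : Dec P) : Dec (fun j Γ Λ v =>
      ∃ x, P j Γ Λ (Fin.snoc (α := fun _ => Fin (2 ^ j * 2 ^ j)) v x)) := by
  obtain ⟨C, C', hC, hC', H⟩ := hP
  refine ⟨Set C, Set C', inferInstance, inferInstance, fun j => ?_⟩
  obtain ⟨L, R, D, h⟩ := H j
  refine ⟨fun Γ v => Set.range fun x => L Γ (Fin.snoc (α := fun _ => Fin (2 ^ j)) v x),
    fun Λ v => Set.range fun x => R Λ (Fin.snoc (α := fun _ => Fin (2 ^ j)) v x),
    fun c c' => ∃ x ∈ c, ∃ y ∈ c', D x y, fun Γ Λ v => ?_⟩
  constructor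
  · rintro ⟨x, hx⟩
    rw [h, snoc_map (m := 2 ^ j * 2 ^ j) (n := 2 ^ j) Fin.divNat,
      snoc_map (m := 2 ^ j * 2 ^ j) (n := 2 ^ j) Fin.modNat] at hx
    exact ⟨_, ⟨_, rfl⟩, _, ⟨_, rfl⟩, hx⟩
  · rintro ⟨_, ⟨x, rfl⟩, _, ⟨y, rfl⟩, hxy⟩
    refine ⟨comb x y, ?_⟩
    rw [h, snoc_map (m := 2 ^ j * 2 ^ j) (n := 2 ^ j) Fin.divNat,
      snoc_map (m := 2 ^ j * 2 ^ j) (n := 2 ^ j) Fin.modNat, divNat_comb, modNat_comb]
    exact hxy

theorem dec_reg {k r q : ℕ}
    {P : Fin r → ∀ j : ℕ, Half (2 ^ j) → Half (2 ^ j) → (Fin (k + 1) → Fin (2 ^ j * 2 ^ j)) → Prop}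
    (hP : ∀ i, Dec (P i)) (s₀ : Fin q) (δ : Fin q → Set (Fin r) → Fin q) (F : Set (Fin q)) :
    Dec (fun j Γ Λ v => (List.finRange (2 ^ j * 2 ^ j)).foldl
      (fun s x => δ s {i | P i j Γ Λ (Fin.snoc (α := fun _ => Fin (2 ^ j * 2 ^ j)) v x)}) s₀
        ∈ F) := by
  choose C C' hC hC' H using hP
  refine ⟨((∀ i, C i) → Fin q → Fin q) → (Fin q → Fin q), (∀ i, C i) → Fin q → Fin q,
    inferInstance, inferInstance, fun j => ?_⟩
  choose L R D h using fun i => H i j
  refine ⟨fun Γ v τ => runF (2 ^ j)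
      (fun x => τ (fun i => L i Γ (Fin.snoc (α := fun _ => Fin (2 ^ j)) v x))),
    fun Λ v c => runF (2 ^ j)
      (fun y s => δ s {i | D i (c i) (R i Λ (Fin.snoc (α := fun _ => Fin (2 ^ j)) v y))}),
    fun a b => a b s₀ ∈ F, fun Γ Λ v => ?_⟩
  have key : ∀ x : Fin (2 ^ j * 2 ^ j), ∀ s : Fin q,
      δ s {i | P i j Γ Λ (Fin.snoc (α := fun _ => Fin (2 ^ j * 2 ^ j)) v x)} =
      δ s {i | D i (L i Γ (Fin.snoc (α := fun _ => Fin (2 ^ j)) (fun s => (v s).divNat) x.divNat))
        (R i Λ (Fin.snoc (α := fun _ => Fin (2 ^ j)) (fun s => (v s).modNat) x.modNat))} := by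
    intro x s
    congr 1
    ext i
    rw [Set.mem_ofPred_eq, Set.mem_ofPred_eq, h,
      snoc_map (m := 2 ^ j * 2 ^ j) (n := 2 ^ j) Fin.divNat,
      snoc_map (m := 2 ^ j * 2 ^ j) (n := 2 ^ j) Fin.modNat]
  have e : (List.finRange (2 ^ j * 2 ^ j)).foldl
      (fun s x => δ s {i | P i j Γ Λ (Fin.snoc (α := fun _ => Fin (2 ^ j * 2 ^ j)) v x)}) s₀ =
      runF (2 ^ j * 2 ^ j) (fun x s => δ s {i | D i (L i Γ (Fin.snoc (α := fun _ => Fin (2 ^ j))
        (fun s => (v s).divNat) x.divNat))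
        (R i Λ (Fin.snoc (α := fun _ => Fin (2 ^ j)) (fun s => (v s).modNat) x.modNat))}) s₀ := by
    rw [← foldl_finRange]
    congr 1
    funext s x
    exact key x s
  beta_reduce
  rw [e, runF_mul]
  simp only [divNat_comb, modNat_comb]

theorem dec_sat {ι : Type} {ar : ι → ℕ} (N : ∀ i n, (Fin (ar i) → Fin n) → Prop)
    (hN : ∀ i, SplitBounded (N i)) {k : ℕ} (φ : Formula ι ar k) :
    Dec (fun _ Γ Λ v => Sat (fun i => N i _) (prodTab Γ.1 Λ.1) (prodTab Γ.2 Λ.2) φ v) := by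
  induction φ with
  | eq a b => simpa only [Sat] using dec_eq a b
  | lt a b => simpa only [Sat] using dec_lt a b
  | add a b c => simpa only [Sat] using dec_add a b c
  | num i u => simpa only [Sat] using dec_num (N i) (hN i) u
  | tab a b c => simpa only [Sat] using dec_tab a b c
  | tab' a b c => simpa only [Sat] using dec_tab' a b c
  | neg φ ih => simpa only [Sat] using dec_neg ih
  | and φ ψ ih ih' => simpa only [Sat] using dec_and ih ih'
  | ex φ ih => simpa only [Sat] using dec_ex ih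
  | reg r q φ s₀ δ F ih => simpa only [Sat] using dec_reg ih s₀ δ F

/-- the group `Z/2^t x (Z/2)^(j-t)` -/
abbrev Grp (j t : ℕ) := ZMod (2 ^ t) × (Fin (j - t) → ZMod 2)

theorem exists_equiv (j t : ℕ) (h : t ≤ j) : Nonempty (Fin (2 ^ j) ≃ Grp j t) := by
  have : NeZero (2 ^ t) := ⟨by positivity⟩
  have hc : Fintype.card (Grp j t) = 2 ^ j := by
    rw [Fintype.card_prod, ZMod.card, Fintype.card_fun, ZMod.card, Fintype.card_fin, ← pow_add]
    congr 1
    omega
  exact ⟨(Fintype.equivFinOfCardEq hc).symm⟩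

/-- the multiplication table -/
def tabOf {m : ℕ} {G : Type} [AddCommGroup G] (e : Fin m ≃ G) : Table m :=
  fun x y => e.symm (e x + e y)

theorem prodTab_tab {m : ℕ} {G H : Type} [AddCommGroup G] [AddCommGroup H] (e : Fin m ≃ G)
    (f : Fin m ≃ H) : ∃ E : Fin (m * m) ≃ G × H,
      ∀ x y, E (prodTab (tabOf e) (tabOf f) x y) = E x + E y := by
  refine ⟨⟨fun x => (e x.divNat, f x.modNat), fun z => comb (e.symm z.1) (f.symm z.2),
    fun x => ?_, fun z => ?_⟩, fun x y => ?_⟩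
  · show comb (e.symm (e x.divNat)) (f.symm (f x.modNat)) = x
    rw [Equiv.symm_apply_apply, Equiv.symm_apply_apply, comb_divNat_modNat]
  · show (e (comb (e.symm z.1) (f.symm z.2)).divNat, f (comb (e.symm z.1) (f.symm z.2)).modNat) = z
    rw [divNat_comb, modNat_comb, Equiv.apply_symm_apply, Equiv.apply_symm_apply]
  · show (e (prodTab (tabOf e) (tabOf f) x y).divNat, f (prodTab (tabOf e) (tabOf f) x y).modNat) =
      (e x.divNat, f x.modNat) + (e y.divNat, f y.modNat)
    unfold prodTab tabOf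
    rw [divNat_comb, modNat_comb, Equiv.apply_symm_apply, Equiv.apply_symm_apply]
    rfl

theorem tableIso_of_addEquiv {n : ℕ} {G H : Type} [AddCommGroup G] [AddCommGroup H]
    {T T' : Table n} (E : Fin n ≃ G) (hE : ∀ x y, E (T x y) = E x + E y) (E' : Fin n ≃ H)
    (hE' : ∀ x y, E' (T' x y) = E' x + E' y) (g : G ≃+ H) : TableIso T T' := by
  refine ⟨(E.trans g.toEquiv).trans E'.symm, fun x y => ?_⟩
  apply E'.injective
  rw [hE']
  simp [hE, map_add]

theorem addEquiv_of_tableIso {n : ℕ} {G H : Type} [AddCommGroup G] [AddCommGroup H]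
    {T T' : Table n} (E : Fin n ≃ G) (hE : ∀ x y, E (T x y) = E x + E y) (E' : Fin n ≃ H)
    (hE' : ∀ x y, E' (T' x y) = E' x + E' y) (h : TableIso T T') : Nonempty (G ≃+ H) := by
  obtain ⟨σ, hσ⟩ := h
  refine ⟨{ (E.symm.trans σ).trans E' with map_add' := fun a b => ?_ }⟩
  show E' (σ (E.symm (a + b))) = E' (σ (E.symm a)) + E' (σ (E.symm b))
  rw [← hE', ← hσ]
  congr 2
  apply E.injective
  rw [hE]
  simp

theorem exp_iff (j t s : ℕ) (hs : 1 ≤ s) : (∀ x : Grp j t, 2 ^ s • x = 0) ↔ t ≤ s := by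
  constructor
  · intro h
    have h1 := congrArg Prod.fst (h (1, 0))
    have h2 : ((2 ^ s : ℕ) : ZMod (2 ^ t)) = 0 := by
      have h3 : (2 ^ s : ℕ) • (1 : ZMod (2 ^ t)) = 0 := h1
      rwa [nsmul_eq_mul, mul_one] at h3
    rw [ZMod.natCast_eq_zero_iff] at h2
    exact (Nat.pow_dvd_pow_iff_le_right (by norm_num)).1 h2
  · intro h x
    refine Prod.ext ?_ ?_
    · show (2 ^ s : ℕ) • x.1 = 0
      rw [nsmul_eq_mul]
      have h2 : ((2 ^ s : ℕ) : ZMod (2 ^ t)) = 0 := by
        rw [ZMod.natCast_eq_zero_iff]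
        exact Nat.pow_dvd_pow 2 h
      rw [h2, zero_mul]
    · funext i
      show (2 ^ s : ℕ) • x.2 i = 0
      rw [nsmul_eq_mul]
      have h2 : ((2 ^ s : ℕ) : ZMod 2) = 0 := by
        rw [ZMod.natCast_eq_zero_iff]
        exact dvd_pow_self 2 (by omega)
      rw [h2, zero_mul]

theorem exp_prod {G H : Type} [AddCommGroup G] [AddCommGroup H] (s : ℕ) :
    (∀ x : G × H, 2 ^ s • x = 0) ↔ (∀ x : G, 2 ^ s • x = 0) ∧ (∀ x : H, 2 ^ s • x = 0) := by
  constructor
  · intro h
    exact ⟨fun x => congrArg Prod.fst (h (x, 0)), fun x => congrArg Prod.snd (h (0, x))⟩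
  · rintro ⟨h, h'⟩ x
    exact Prod.ext (h x.1) (h' x.2)

theorem exp_congr {G H : Type} [AddCommGroup G] [AddCommGroup H] (g : G ≃+ H) (s : ℕ) :
    (∀ x : G, 2 ^ s • x = 0) ↔ (∀ x : H, 2 ^ s • x = 0) := by
  constructor
  · intro h x
    have := congrArg g (h (g.symm x))
    rwa [map_nsmul, map_zero, AddEquiv.apply_symm_apply] at this
  · intro h x
    have := congrArg g.symm (h (g x))
    rwa [map_nsmul, map_zero, AddEquiv.symm_apply_apply] at this

theorem eq_of_addEquiv (j t c : ℕ) (ht : 1 ≤ t) (hc : 1 ≤ c)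
    (g : (Grp j 1 × Grp j t) ≃+ (Grp j c × Grp j 1)) : t = c := by
  have h : ∀ s, 1 ≤ s → (t ≤ s ↔ c ≤ s) := by
    intro s hs
    have h1 := exp_congr g s
    rw [exp_prod (G := Grp j 1) (H := Grp j t), exp_prod (G := Grp j c) (H := Grp j 1),
      exp_iff _ _ _ hs, exp_iff _ _ _ hs, exp_iff _ _ _ hs] at h1
    tauto
  have h1 := h t ht
  have h2 := h c hc
  omega

/-- No formula without free variables decides isomorphism of abelian groups of order `4 ^ j`, for
any large `j`. -/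
theorem result (ι : Type) (ar : ι → ℕ) (N : ∀ i n, (Fin (ar i) → Fin n) → Prop)
    (hN : ∀ i, SplitBounded (N i)) (φ : Formula ι ar 0) :
    ∃ j₀ : ℕ, ∀ j ≥ j₀, ∃ T T' : Table (2 ^ j * 2 ^ j),
      IsAbelianGroupTable T ∧ IsAbelianGroupTable T' ∧
        ¬ (Sat (fun i => N i (2 ^ j * 2 ^ j)) T T' φ Fin.elim0 ↔ TableIso T T') := by
  classical
  obtain ⟨C, C', hC, hC', H⟩ := dec_sat N hN φ
  refine ⟨Nat.card C' + 1, fun j hj => ?_⟩
  obtain ⟨L, R, D, h⟩ := H j
  by_contra hcon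
  push Not at hcon
  have e : ∀ t : Fin j, Fin (2 ^ j) ≃ Grp j (t + 1) := fun t =>
    (exists_equiv j (t + 1) (by omega)).some
  have e₁ : Fin (2 ^ j) ≃ Grp j 1 := (exists_equiv j 1 (by omega)).some
  have key : ∀ t c : Fin j,
      Sat (fun i => N i (2 ^ j * 2 ^ j)) (prodTab (tabOf e₁) (tabOf (e t)))
        (prodTab (tabOf (e c)) (tabOf e₁)) φ Fin.elim0 ↔ t = c := by
    intro t c
    obtain ⟨E, hE⟩ := prodTab_tab e₁ (e t)
    obtain ⟨E', hE'⟩ := prodTab_tab (e c) e₁
    rw [hcon _ _ ⟨_, inferInstance, E, hE⟩ ⟨_, inferInstance, E', hE'⟩]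
    constructor
    · intro hiso
      obtain ⟨g⟩ := addEquiv_of_tableIso E hE E' hE' hiso
      have := eq_of_addEquiv j (t + 1) (c + 1) (by omega) (by omega) g
      exact Fin.ext (by omega)
    · rintro rfl
      exact tableIso_of_addEquiv E hE E' hE' AddEquiv.prodComm
  have hinj : Function.Injective
      (fun t : Fin j => R (tabOf (e t), tabOf e₁) (fun s : Fin 0 => s.elim0)) := by
    intro t c htc
    have h1 := h (tabOf e₁, tabOf (e c)) (tabOf (e t), tabOf e₁) Fin.elim0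
    have h2 := h (tabOf e₁, tabOf (e c)) (tabOf (e c), tabOf e₁) Fin.elim0
    have h0 : ∀ m : ℕ, ∀ f : Fin 0 → Fin m, f = (fun s : Fin 0 => s.elim0) := fun m f => by
      funext s; exact s.elim0
    beta_reduce at h1 h2 htc
    rw [h0 _ (fun s : Fin 0 => (Fin.elim0 s : Fin (2 ^ j * 2 ^ j)).modNat)] at h1 h2
    rw [htc, ← h2] at h1
    exact (key t c).1 (h1.2 ((key c c).2 rfl))
  have hcard := Nat.card_le_card_of_injective _ hinj
  rw [Nat.card_eq_fintype_card, Fintype.card_fin] at hcard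
  omega

end Pool.Agent.Results.MP_c695c6_lc.RegularLogic
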